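import Mathlib

set_option autoImplicit false

namespace Pool.Agent.Results.MP_cd51d2_nt.EvenBases

/-- `n` is a pseudoprime to base `a`: a composite positive integer with `a^(n-1) ≡ 1 (mod n)`. -/
def IsPsp (a n : ℕ) : Prop := 1 < n ∧ ¬ n.Prime ∧ a ^ (n - 1) ≡ 1 [MOD n]

theorem psp_of {a n K : ℕ} (hn : 1 < n) (h1 : (n : ℤ) ∣ (a : ℤ) ^ K - 1) (h2 : (K : ℤ) ∣ (n : ℤ) - 1) :
    a ^ (n - 1) ≡ 1 [MOD n] := by
  have h3 : K ∣ n - 1 := by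
    have : ((n - 1 : ℕ) : ℤ) = (n : ℤ) - 1 := by
      rw [Nat.cast_sub hn.le]; norm_num
    rw [← this] at h2
    exact_mod_cast h2
  obtain ⟨c, hc⟩ := h3
  rw [hc, pow_mul]
  have h4 : a ^ K ≡ 1 [MOD n] := by
    rw [← Int.natCast_modEq_iff]
    push_cast
    exact ((Int.modEq_iff_dvd).2 h1).symm
  simpa using h4.pow c

theorem prime_dvd (q : ℕ) (hq : q.Prime) (hd : (q - 1) ∣ 272) (w : ℤ) :
    (q : ℤ) ∣ w ^ 68 * ((w ^ 68) ^ 4 - 1) := by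
  have := Fact.mk hq
  rw [← ZMod.intCast_zmod_eq_zero_iff_dvd]
  push_cast
  by_cases hw : (w : ZMod q) = 0
  · rw [hw]; simp
  · obtain ⟨c, hc⟩ := hd
    have h1 : ((w : ZMod q) ^ 68) ^ 4 = 1 := by
      rw [← pow_mul, show 68 * 4 = 272 by norm_num, hc, pow_mul, ZMod.pow_card_sub_one_eq_one hw,
        one_pow]
    rw [h1]; simp

theorem p255 (w : ℤ) : (255 : ℤ) ∣ w ^ 68 * ((w ^ 68) ^ 4 - 1) := by
  have h3 := prime_dvd 3 (by norm_num) (by norm_num) w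
  have h5 := prime_dvd 5 (by norm_num) (by norm_num) w
  have h17 := prime_dvd 17 (by norm_num) (by norm_num) w
  push_cast at h3 h5 h17
  have c1 : IsCoprime (3 : ℤ) 5 := by rw [Int.isCoprime_iff_gcd_eq_one]; decide
  have h15 := c1.mul_dvd h3 h5
  have c2 : IsCoprime (3 * 5 : ℤ) 17 := by rw [Int.isCoprime_iff_gcd_eq_one]; decide
  have h := c2.mul_dvd h15 h17
  norm_num at h
  exact h

/-- the three cyclotomic polynomials -/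
def P1 (t : ℤ) : ℤ := t ^ 8 - t ^ 7 + t ^ 5 - t ^ 4 + t ^ 3 - t + 1
def P2 (t : ℤ) : ℤ := t ^ 8 - t ^ 4 + 1
def P3 (t : ℤ) : ℤ := t ^ 8 + t ^ 7 - t ^ 5 - t ^ 4 - t ^ 3 + t + 1

theorem bd1 {t : ℤ} (ht : 2 ≤ t) : t ^ 7 ≤ P1 t ∧ P1 t ≤ 2 * t ^ 8 := by
  obtain ⟨s, rfl⟩ : ∃ s, t = s + 2 := ⟨t - 2, by ring⟩
  have hs : 0 ≤ s := by linarith
  unfold P1
  constructor
  · have : (0 : ℤ) ≤ ((s + 2) ^ 8 - (s + 2) ^ 7 + (s + 2) ^ 5 - (s + 2) ^ 4 + (s + 2) ^ 3 - (s + 2) + 1) - (s + 2) ^ 7 := by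
      ring_nf; positivity
    linarith
  · have : (0 : ℤ) ≤ 2 * (s + 2) ^ 8 - ((s + 2) ^ 8 - (s + 2) ^ 7 + (s + 2) ^ 5 - (s + 2) ^ 4 + (s + 2) ^ 3 - (s + 2) + 1) := by
      ring_nf; positivity
    linarith

theorem bd2 {t : ℤ} (ht : 2 ≤ t) : t ^ 7 ≤ P2 t ∧ P2 t ≤ 2 * t ^ 8 := by
  obtain ⟨s, rfl⟩ : ∃ s, t = s + 2 := ⟨t - 2, by ring⟩
  have hs : 0 ≤ s := by linarith
  unfold P2
  constructor
  · have : (0 : ℤ) ≤ ((s + 2) ^ 8 - (s + 2) ^ 4 + 1) - (s + 2) ^ 7 := by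
      ring_nf; positivity
    linarith
  · have : (0 : ℤ) ≤ 2 * (s + 2) ^ 8 - ((s + 2) ^ 8 - (s + 2) ^ 4 + 1) := by
      ring_nf; positivity
    linarith

theorem bd3 {t : ℤ} (ht : 2 ≤ t) : t ^ 7 ≤ P3 t ∧ P3 t ≤ 2 * t ^ 8 := by
  obtain ⟨s, rfl⟩ : ∃ s, t = s + 2 := ⟨t - 2, by ring⟩
  have hs : 0 ≤ s := by linarith
  unfold P3
  constructor
  · have : (0 : ℤ) ≤ ((s + 2) ^ 8 + (s + 2) ^ 7 - (s + 2) ^ 5 - (s + 2) ^ 4 - (s + 2) ^ 3 + (s + 2) + 1) - (s + 2) ^ 7 := by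
      ring_nf; positivity
    linarith
  · have : (0 : ℤ) ≤ 2 * (s + 2) ^ 8 - ((s + 2) ^ 8 + (s + 2) ^ 7 - (s + 2) ^ 5 - (s + 2) ^ 4 - (s + 2) ^ 3 + (s + 2) + 1) := by
      ring_nf; positivity
    linarith

theorem modP1 {N u v : ℤ} (h : u ≡ v [ZMOD N]) : P1 u ≡ P1 v [ZMOD N] := by
  unfold P1
  exact (((((((h.pow 8).sub (h.pow 7)).add (h.pow 5)).sub (h.pow 4)).add (h.pow 3)).sub h).add (Int.ModEq.refl 1))

theorem modP2 {N u v : ℤ} (h : u ≡ v [ZMOD N]) : P2 u ≡ P2 v [ZMOD N] := by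
  unfold P2
  exact ((h.pow 8).sub (h.pow 4)).add (Int.ModEq.refl 1)

theorem modP3 {N u v : ℤ} (h : u ≡ v [ZMOD N]) : P3 u ≡ P3 v [ZMOD N] := by
  unfold P3
  exact (((((((h.pow 8).add (h.pow 7)).sub (h.pow 5)).sub (h.pow 4)).sub (h.pow 3)).add h).add (Int.ModEq.refl 1))

theorem dvd1 (y : ℤ) : P1 y ∣ P1 (y ^ 17) := by
  have h1 : y ^ 17 ≡ y ^ 2 [ZMOD (P1 y)] := by
    apply Int.ModEq.symm
    rw [Int.modEq_iff_dvd]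
    refine ⟨y ^ 2 * ((y ^ 5 - 1) * (y ^ 2 + y + 1)), ?_⟩
    unfold P1; ring
  have h2 := modP1 h1
  have h3 : P1 y ∣ P1 (y ^ 2) := ⟨P3 y, by unfold P1 P3; ring⟩
  exact (Int.ModEq.dvd_iff h2).2 h3

theorem dvd3 (y : ℤ) : P3 y ∣ P3 (y ^ 17) := by
  have h1 : y ^ 17 ≡ -y ^ 2 [ZMOD (P3 y)] := by
    apply Int.ModEq.symm
    rw [Int.modEq_iff_dvd]
    refine ⟨y ^ 2 * ((y ^ 5 + 1) * (y ^ 2 - y + 1)), ?_⟩
    unfold P3; ring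
  have h2 := modP3 h1
  have h3 : P3 y ∣ P3 (-y ^ 2) := ⟨P1 y, by unfold P1 P3; ring⟩
  exact (Int.ModEq.dvd_iff h2).2 h3

theorem dvd2 (y : ℤ) : P2 y ∣ P2 (y ^ 17) := by
  have h1 : y ^ 17 ≡ -y ^ 5 [ZMOD (P2 y)] := by
    apply Int.ModEq.symm
    rw [Int.modEq_iff_dvd]
    refine ⟨y ^ 5 * (y ^ 4 + 1), ?_⟩
    unfold P2; ring
  have h2 := modP2 h1
  have h3 : P2 y ∣ P2 (-y ^ 5) := by
    have h4 : y ^ 20 ≡ 1 - y ^ 4 [ZMOD (P2 y)] := by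
      apply Int.ModEq.symm
      rw [Int.modEq_iff_dvd]
      refine ⟨y ^ 12 + y ^ 8 - 1, ?_⟩
      unfold P2; ring
    have h5 : P2 (-y ^ 5) ≡ (1 - y ^ 4) ^ 2 - (1 - y ^ 4) + 1 [ZMOD (P2 y)] := by
      have h6 : P2 (-y ^ 5) = (y ^ 20) ^ 2 - y ^ 20 + 1 := by unfold P2; ring
      rw [h6]
      exact ((h4.pow 2).sub h4).add (Int.ModEq.refl 1)
    have h7 : P2 y ∣ (1 - y ^ 4) ^ 2 - (1 - y ^ 4) + 1 := ⟨1, by unfold P2; ring⟩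
    exact (Int.ModEq.dvd_iff h5).2 h7
  exact (Int.ModEq.dvd_iff h2).2 h3

theorem composite {y : ℤ} (hy : 16 ≤ y) {P : ℤ → ℤ} {n : ℕ} (hn : (n : ℤ) = P (y ^ 17))
    (hd : P y ∣ P (y ^ 17)) (hb : ∀ t : ℤ, 2 ≤ t → t ^ 7 ≤ P t ∧ P t ≤ 2 * t ^ 8) :
    1 < n ∧ ¬ n.Prime := by
  have h1 := hb y (by linarith)
  have hx2 : y ^ 2 ≤ y ^ 17 := pow_le_pow_right₀ (by linarith) (by norm_num)
  have hx3 : (2 : ℤ) ≤ y ^ 17 := by nlinarith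
  have h2 := hb (y ^ 17) hx3
  have h3 : 2 * y ^ 8 < (y ^ 17) ^ 7 := by
    have e : (y ^ 17) ^ 7 = y ^ 8 * y ^ 111 := by ring
    have h4 : y ^ 1 ≤ y ^ 111 := pow_le_pow_right₀ (by linarith) (by norm_num)
    have h5 : 0 < y ^ 8 := by positivity
    rw [e]
    nlinarith
  have h6 : (2 : ℤ) ≤ P y := by
    have : y ^ 1 ≤ y ^ 7 := pow_le_pow_right₀ (by linarith) (by norm_num)
    linarith [h1.1]
  obtain ⟨m, hm⟩ : ∃ m : ℕ, (m : ℤ) = P y := ⟨(P y).toNat, Int.toNat_of_nonneg (by linarith)⟩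
  have h7 : m ∣ n := by
    rw [← Int.natCast_dvd_natCast, hm, hn]; exact hd
  have h8 : m < n := by
    have : (m : ℤ) < (n : ℤ) := by rw [hm, hn]; linarith [h1.2, h2.1]
    exact_mod_cast this
  have h9 : 2 ≤ m := by
    have : (2 : ℤ) ≤ (m : ℤ) := by rw [hm]; exact h6
    exact_mod_cast this
  exact ⟨by omega, Nat.not_prime_of_dvd_of_lt h7 h9 h8⟩

theorem step (a : ℕ) (ha : Even a) (h2 : 2 ≤ a) (i : ℕ) :
    ∃ n₁ n₂ n₃ : ℕ, i < n₁ ∧ n₁ < n₂ ∧ n₂ < n₃ ∧ n₁ + n₃ = 2 * n₂ ∧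
      IsPsp a n₁ ∧ IsPsp a n₂ ∧ IsPsp a n₃ := by
  obtain ⟨w, hw⟩ : ∃ w : ℤ, w = (a : ℤ) ^ (2 ^ i) := ⟨_, rfl⟩
  obtain ⟨y, hy⟩ : ∃ y : ℤ, y = w ^ 4 := ⟨_, rfl⟩
  obtain ⟨x, hx⟩ : ∃ x : ℤ, x = y ^ 17 := ⟨_, rfl⟩
  have ha2 : (2 : ℤ) ≤ (a : ℤ) := by exact_mod_cast h2
  have hw2 : (2 : ℤ) ^ (i + 1) ≤ w := by
    rw [hw]
    calc (2 : ℤ) ^ (i + 1) ≤ 2 ^ (2 ^ i) := pow_le_pow_right₀ (by norm_num) (by
          have := Nat.lt_two_pow_self (n := i); omega)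
      _ ≤ (a : ℤ) ^ (2 ^ i) := pow_le_pow_left₀ (by norm_num) ha2 _
  have hw3 : (2 : ℤ) ≤ w := by
    have : (2 : ℤ) ^ 1 ≤ 2 ^ (i + 1) := pow_le_pow_right₀ (by norm_num) (by omega)
    linarith
  have hy16 : (16 : ℤ) ≤ y := by
    rw [hy]
    calc (16 : ℤ) = 2 ^ 4 := by norm_num
      _ ≤ w ^ 4 := pow_le_pow_left₀ (by norm_num) hw3 4
  have hxw : w ≤ x := by
    rw [hx, hy, ← pow_mul]
    calc w = w ^ 1 := (pow_one w).symm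
      _ ≤ w ^ (4 * 17) := pow_le_pow_right₀ (by linarith) (by norm_num)
  have hx2 : (2 : ℤ) ≤ x := by linarith
  have hxa : x = (a : ℤ) ^ (2 ^ i * 68) := by
    rw [hx, hy, hw, ← pow_mul, ← pow_mul]
  -- divisibility of x by powers of two
  have htwo : (2 : ℤ) ^ (i + 3) ∣ x := by
    rw [hxa]
    obtain ⟨b, hb⟩ := ha
    have hb' : (a : ℤ) = 2 * (b : ℤ) := by rw [hb]; push_cast; ring
    rw [hb', mul_pow]
    apply Dvd.dvd.mul_right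
    apply pow_dvd_pow
    have := Nat.lt_two_pow_self (n := i)
    omega
  have h255 : (255 : ℤ) ∣ x * (x ^ 4 - 1) := by
    have := p255 w
    have e : x = w ^ 68 := by rw [hx, hy, ← pow_mul]
    rw [e]; exact this
  have hcop : IsCoprime ((2 : ℤ) ^ (i + 3)) 255 := by
    apply IsCoprime.pow_left
    rw [Int.isCoprime_iff_gcd_eq_one]; decide
  have hcop' : IsCoprime ((2 : ℤ) ^ (i + 5)) 255 := by
    apply IsCoprime.pow_left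
    rw [Int.isCoprime_iff_gcd_eq_one]; decide
  have hbig : (2 : ℤ) ^ (i + 3) * 255 ∣ x * (x ^ 4 - 1) :=
    hcop.mul_dvd (Dvd.dvd.mul_right htwo _) h255
  have hbig2 : (2 : ℤ) ^ (i + 5) * 255 ∣ x ^ 4 * (x ^ 4 - 1) := by
    apply hcop'.mul_dvd
    · apply Dvd.dvd.mul_right
      have h3 := pow_dvd_pow_of_dvd htwo 4
      rw [← pow_mul] at h3
      exact (pow_dvd_pow 2 (by omega)).trans h3
    · have e : x ^ 4 * (x ^ 4 - 1) = x ^ 3 * (x * (x ^ 4 - 1)) := by ring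
      rw [e]; exact Dvd.dvd.mul_left h255 _
  have b1 := bd1 hx2
  have b2 := bd2 hx2
  have b3 := bd3 hx2
  have hx7 : 0 < x ^ 7 := by positivity
  obtain ⟨n₁, hn1⟩ : ∃ m : ℕ, (m : ℤ) = P1 x := ⟨(P1 x).toNat, Int.toNat_of_nonneg (by linarith)⟩
  obtain ⟨n₂, hn2⟩ : ∃ m : ℕ, (m : ℤ) = P2 x := ⟨(P2 x).toNat, Int.toNat_of_nonneg (by linarith)⟩
  obtain ⟨n₃, hn3⟩ : ∃ m : ℕ, (m : ℤ) = P3 x := ⟨(P3 x).toNat, Int.toNat_of_nonneg (by linarith)⟩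
  have c1 := composite hy16 (P := P1) (n := n₁) (by rw [hn1, hx]) (dvd1 y) (fun t ht => bd1 ht)
  have c2 := composite hy16 (P := P2) (n := n₂) (by rw [hn2, hx]) (dvd2 y) (fun t ht => bd2 ht)
  have c3 := composite hy16 (P := P3) (n := n₃) (by rw [hn3, hx]) (dvd3 y) (fun t ht => bd3 ht)
  have hD : 0 < x * (x ^ 2 - 1) * (x ^ 4 - 1) := by
    have h4 : 0 < x ^ 2 - 1 := by nlinarith
    have h5 : 0 < x ^ 4 - 1 := by nlinarith [sq_nonneg (x ^ 2 - 1)]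
    have h6 : 0 < x := by linarith
    positivity
  refine ⟨n₁, n₂, n₃, ?_, ?_, ?_, ?_, ?_, ?_, ?_⟩
  · have h4 : (i : ℤ) < (n₁ : ℤ) := by
      rw [hn1]
      have h5 : (i : ℤ) < 2 ^ (i + 1) := by
        have := Nat.lt_two_pow_self (n := i)
        have h6 : (i : ℤ) < 2 ^ i := by exact_mod_cast this
        have h7 : (2 : ℤ) ^ i ≤ 2 ^ (i + 1) := pow_le_pow_right₀ (by norm_num) (by omega)
        linarith
      have h8 : x ^ 1 ≤ x ^ 7 := pow_le_pow_right₀ (by linarith) (by norm_num)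
      rw [pow_one] at h8
      linarith [b1.1]
    exact_mod_cast h4
  · have : (n₁ : ℤ) < (n₂ : ℤ) := by
      rw [hn1, hn2]
      have e : P2 x - P1 x = x * (x ^ 2 - 1) * (x ^ 4 - 1) := by unfold P1 P2; ring
      linarith
    exact_mod_cast this
  · have : (n₂ : ℤ) < (n₃ : ℤ) := by
      rw [hn2, hn3]
      have e : P3 x - P2 x = x * (x ^ 2 - 1) * (x ^ 4 - 1) := by unfold P3 P2; ring
      linarith
    exact_mod_cast this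
  · have : (n₁ : ℤ) + (n₃ : ℤ) = 2 * (n₂ : ℤ) := by
      rw [hn1, hn2, hn3]; unfold P1 P2 P3; ring
    exact_mod_cast this
  · refine ⟨c1.1, c1.2, psp_of (K := 2 ^ i * 68 * 15) c1.1 ?_ ?_⟩
    · rw [pow_mul, ← hxa, hn1]
      exact ⟨(x ^ 5 - 1) * (x ^ 2 + x + 1), by unfold P1; ring⟩
    · rw [hn1]
      have e : P1 x - 1 = x * (x ^ 4 - 1) * (x ^ 3 - x ^ 2 + 1) := by unfold P1; ring
      rw [e]
      refine Dvd.dvd.trans ?_ (Dvd.dvd.mul_right hbig _)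
      exact ⟨2, by push_cast; ring⟩
  · refine ⟨c2.1, c2.2, psp_of (K := 2 ^ i * 68 * 24) c2.1 ?_ ?_⟩
    · rw [pow_mul, ← hxa, hn2]
      exact ⟨(x ^ 12 - 1) * (x ^ 4 + 1), by unfold P2; ring⟩
    · rw [hn2]
      have e : P2 x - 1 = x ^ 4 * (x ^ 4 - 1) := by unfold P2; ring
      rw [e]
      refine Dvd.dvd.trans ?_ hbig2
      exact ⟨5, by push_cast; ring⟩
  · refine ⟨c3.1, c3.2, psp_of (K := 2 ^ i * 68 * 30) c3.1 ?_ ?_⟩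
    · rw [pow_mul, ← hxa, hn3]
      exact ⟨(x ^ 15 - 1) * ((x ^ 5 + 1) * (x ^ 2 - x + 1)), by unfold P3; ring⟩
    · rw [hn3]
      have e : P3 x - 1 = x * (x ^ 4 - 1) * (x ^ 3 + x ^ 2 - 1) := by unfold P3; ring
      rw [e]
      refine Dvd.dvd.trans ?_ (Dvd.dvd.mul_right hbig _)
      exact ⟨1, by push_cast; ring⟩

/-- For every even `a ≥ 2` there are infinitely many arithmetic progressions `n₁ < n₂ < n₃` of three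
pseudoprimes to base `a`. -/
theorem result : ∀ a : ℕ, Even a → 2 ≤ a →
    {t : ℕ × ℕ × ℕ | t.1 < t.2.1 ∧ t.2.1 < t.2.2 ∧ t.2.2 - t.2.1 = t.2.1 - t.1 ∧
      IsPsp a t.1 ∧ IsPsp a t.2.1 ∧ IsPsp a t.2.2}.Infinite := by
  intro a ha h2
  apply Set.Infinite.of_image (fun t : ℕ × ℕ × ℕ => t.1)
  apply Set.infinite_of_forall_exists_gt
  intro i
  obtain ⟨n₁, n₂, n₃, h1, h3, h4, h5, h6, h7, h8⟩ := step a ha h2 i
  refine ⟨n₁, ⟨(n₁, n₂, n₃), ⟨h3, h4, ?_, h6, h7, h8⟩, rfl⟩, h1⟩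
  show n₃ - n₂ = n₂ - n₁
  omega

end Pool.Agent.Results.MP_cd51d2_nt.EvenBases
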